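import Pool.Agent.H752R3.SplitLambda
import Pool.Agent.Helper292.ForceCH

set_option autoImplicit false

/-!
`Split(Ω, T)` implies `Split(Λ, Λ)`, but (consistently) does not imply `Split(T, Γ)`.
-/

namespace Pool.Agent.Results.MP_7b70e8_gt.SplitAnswers

open Pool.Agent.Helper185.Sel Pool.Agent.H752R3.SplitLambda

/-- (1) Every set of reals with `Split(Ω, T)` has `Split(Λ, Λ)`.  (2) Under the continuum
hypothesis there is a set of reals with `Split(Ω, T)` and without `Split(T, Γ)`.  (3) The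
continuum hypothesis can be forced, with `ω₁` preserved. -/
theorem result :
    (∀ X : Set ℝ, SplitP (OmegaOf (OpenFam X)) (TauOf (OpenFam X)) →
      SplitP (LambdaOf (OpenFam X)) (LambdaOf (OpenFam X))) ∧
    (Cardinal.aleph 1 = Cardinal.continuum.{0} →
      ∃ X : Set ℝ, X.Nonempty ∧ SplitP (OmegaOf (OpenFam X)) (TauOf (OpenFam X)) ∧
        ¬ SplitP (TauOf (OpenFam X)) (GammaOf (OpenFam X))) ∧
    (∃ (P : Type) (_ : Preorder P), Nonempty P ∧ ∀ p : P,
      p ∈ Pool.Agent.Helper292.ForceCH.OmegaOnePreserved P ∧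
      p ∈ Pool.Agent.Helper292.ForceCH.CHHolds P) := by
  refine ⟨fun X h => split_lambda h, fun hCH => ?_, ?_⟩
  · obtain ⟨X, h0, h1, h2⟩ := Pool.Agent.Helper185.Blk.exists_real hCH
    exact ⟨X, h0, h1, fun h => h2 (Pool.Agent.Helper185.Blk.split_choose h)⟩
  · obtain ⟨P, i, h1, h2⟩ := Pool.Agent.Helper292.ForceCH.exists_forcing
    exact ⟨P, i, h1, fun p => ⟨(h2 p).1, (h2 p).2.2⟩⟩

end Pool.Agent.Results.MP_7b70e8_gt.SplitAnswers
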